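import Pool.Agent.V2450.WM.Pow

/-!
# MP_898f40_nt: independence of l of the degrees of the local factors of the powers of a variety, and
the monodromy-weight conjecture
-/

set_option autoImplicit false

open Module Filter Topology

universe u v w

namespace Pool.Agent.Results.MP_898f40_nt.DegreesOnPowers

open Pool.Agent.H914 Pool.Agent.Y143 Pool.Agent.Y163.MW Pool.Agent.Y163.MX Pool.Agent.V2450.WM

variable {K : Type u} [Field K] {Λ : Type} {Ω : Λ → Type w} [∀ ℓ, Field (Ω ℓ)]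
  [∀ ℓ, CharZero (Ω ℓ)]

/-- The known properties of the `ℓ`-adic cohomology `T ℓ` of the smooth proper varieties `X` over the
local field `K` (`K = ℚ_p`, `ℓ ≠ p`): the cohomology is finite dimensional and vanishes in the degrees
`m > 2 dim X`, `H^0(X)` has dimension one, `N F = q F N`, the weights are integral, `H^m(X)` is
self-dual, the Künneth formula; the Betti numbers do not depend on `ℓ`; the quotient of the
characteristic polynomials of the Frobenius on `H^even(X)` and on `H^odd(X)` has rational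
coefficients and does not depend on `ℓ`. -/
structure IsSystem (T : ∀ ℓ, Theory.{u, v, w} K (Ω ℓ)) (q : ℕ) : Prop where
  loc : ∀ ℓ, (T ℓ).IsLocal q
  vanish : ∀ ℓ X m, 2 * X.dim < m → ((T ℓ).H X).gr m = ⊥
  zero : ∀ ℓ X, finrank (Ω ℓ) (((T ℓ).H X).gr 0) = 1
  betti : ∀ ℓ ℓ' X m, finrank (Ω ℓ) (((T ℓ).H X).gr m) = finrank (Ω ℓ') (((T ℓ').H X).gr m)
  alt : ∀ ℓ ℓ' X, SameAlt ((T ℓ).H X) ((T ℓ').H X) (2 * X.dim)

/-- The dimension of the kernel of `N` on `H^*(X^(n+1))`. If the inertia group acts unipotently on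
`H^*(X)`, this is the sum over `i` of the degrees of the polynomials
`P_{p,ℓ}(T) = det(1 - F T | H^i(X^(n+1))^I)`. -/
noncomputable def deg (T : ∀ ℓ, Theory.{u, v, w} K (Ω ℓ)) (X : SmVar.{u} K) (ℓ : Λ) (n : ℕ) : ℕ :=
  ((T ℓ).H (pow X n)).inv

/-- The number `2 ∑ k rank (N ^ k)` on `H^*(X)`. -/
noncomputable def ranks (T : ∀ ℓ, Theory.{u, v, w} K (Ω ℓ)) (X : SmVar.{u} K) (ℓ : Λ) : ℤ :=
  ((T ℓ).H X).totRankMoment

/-- The monodromy-weight conjecture for `X` and the prime `ℓ`. -/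
def MW (T : ∀ ℓ, Theory.{u, v, w} K (Ω ℓ)) (q : ℕ) (X : SmVar.{u} K) (ℓ : Λ) : Prop :=
  ∀ m, ((T ℓ).H X).MWPure q m

/-- **The degrees of the local factors of the powers of a variety.**

(1) Let `X` be a smooth proper variety over `K`, and `ℓ`, `ℓ'` primes such that the monodromy
operators `N` on `H^*(X)` are not zero. The ratio of the total degrees of the local factors of `X^n`
for `ℓ` and for `ℓ'` tends to the square root of the ratio of the numbers `∑ k rank (N ^ k)` on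
`H^*(X)` for `ℓ'` and for `ℓ`. If the degrees are equal for infinitely many `n`, then the number
`∑ k rank (N ^ k)` is the same for `ℓ` and `ℓ'` (here `N = 0` is allowed).

(2) Suppose that the characteristic polynomial of the Frobenius on `H^j(X)` has rational coefficients
and does not depend on `ℓ`, except possibly for the degrees `j` in a set `S` of degrees of one parity
(for example, `X` has no odd cohomology, and `S` is the set of all even degrees), and that the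
monodromy-weight conjecture holds for `X` and one prime `ℓ₀`. Then for every prime `ℓ` the
monodromy-weight conjecture holds for `X` and `ℓ` if and only if the degrees for `ℓ` and for `ℓ₀` are
asymptotically equal; and it holds if the degree for `ℓ` is equal to (or smaller than) the degree for
`ℓ₀` for infinitely many powers of `X`. -/
theorem result [∀ ℓ, IsAlgClosed (Ω ℓ)] {T : ∀ ℓ, Theory.{u, v, w} K (Ω ℓ)} {q : ℕ} (hq : 1 < q)
    (hT : IsSystem T q) (X : SmVar.{u} K) :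
    (∀ ℓ ℓ', (((T ℓ).H X).N ≠ 0 → ((T ℓ').H X).N ≠ 0 →
        Tendsto (fun n => (deg T X ℓ n : ℝ) / (deg T X ℓ' n : ℝ)) atTop
          (𝓝 (√((ranks T X ℓ' : ℝ) / (ranks T X ℓ : ℝ))))) ∧
      ((∃ᶠ n in atTop, deg T X ℓ n = deg T X ℓ' n) → ranks T X ℓ = ranks T X ℓ')) ∧
    ∀ S : Finset ℕ, (∀ ℓ ℓ', RemainingPair ((T ℓ).H X) ((T ℓ').H X) (2 * X.dim) S) →
      ∀ ℓ₀, MW T q X ℓ₀ → ∀ ℓ,
        (MW T q X ℓ ↔ Tendsto (fun n => (deg T X ℓ n : ℝ) / (deg T X ℓ₀ n : ℝ)) atTop (𝓝 1)) ∧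
        ((∃ᶠ n in atTop, deg T X ℓ n ≤ deg T X ℓ₀ n) → MW T q X ℓ) := by
  classical
  have hb : ∀ ℓ ℓ', finrank (Ω ℓ) ((T ℓ).H X).V = finrank (Ω ℓ') ((T ℓ').H X).V := by
    intro ℓ ℓ'
    rw [finrank_sum ((hT.loc ℓ).coh X) (hT.vanish ℓ X),
      finrank_sum ((hT.loc ℓ').coh X) (hT.vanish ℓ' X)]
    exact Finset.sum_congr rfl fun m _ => hT.betti ℓ ℓ' X m
  have hb0 : ∀ ℓ, 0 < finrank (Ω ℓ) ((T ℓ).H X).V := by
    intro ℓ
    have := ((hT.loc ℓ).coh X).finite
    have h1 := Submodule.finrank_le (((T ℓ).H X).gr 0)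
    rw [hT.zero ℓ X] at h1
    omega
  refine ⟨fun ℓ ℓ' => ⟨fun hN hN' => ?_, fun h => ?_⟩, fun S hS ℓ₀ h0 ℓ => ?_⟩
  · exact ratio_lim (hT.loc ℓ) (hT.loc ℓ') hq X (hb ℓ ℓ') (hb0 ℓ) hN hN'
  · exact frequently_eq (hT.loc ℓ) (hT.loc ℓ') hq X (hb ℓ ℓ') (hb0 ℓ) h
  · have hW : ((T ℓ).H X).totWeightMoment q = ((T ℓ₀).H X).totWeightMoment q := by
      rw [totWeight_sum hq ((hT.loc ℓ).coh X) (hT.vanish ℓ X),
        totWeight_sum hq ((hT.loc ℓ₀).coh X) (hT.vanish ℓ₀ X)]
      have hsub : S ⊆ Finset.range (2 * X.dim + 1) := by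
        intro m hm
        have := (hS ℓ ℓ₀).le m hm
        rw [Finset.mem_range]
        omega
      rw [← Finset.sum_sdiff hsub, ← Finset.sum_sdiff hsub]
      congr 1
      · refine Finset.sum_congr rfl fun m hm => ?_
        obtain ⟨h1, h2⟩ := Finset.mem_sdiff.1 hm
        obtain ⟨G, hG, hG'⟩ := (hS ℓ ℓ₀).good m
          (by have := Finset.mem_range.1 h1; omega) h2
        have h3 := weightS_congr hq ((hT.loc ℓ).coh X) ((hT.loc ℓ₀).coh X) (S := {m}) (P := G)
          (by simpa [charS] using hG) (by simpa [charS] using hG') (hT.betti ℓ ℓ₀ X)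
        simpa using h3
      · obtain ⟨P, hP, hP'⟩ := common ((hT.loc ℓ).coh X) (hT.alt ℓ ℓ₀ X) (hS ℓ ℓ₀)
        exact weightS_congr hq ((hT.loc ℓ).coh X) ((hT.loc ℓ₀).coh X) hP hP'
          (hT.betti ℓ ℓ₀ X)
    exact ⟨pure_iff_tendsto (hT.loc ℓ) (hT.loc ℓ₀) hq X (hb ℓ ℓ₀) (hb0 ℓ) hW h0,
      pure_of_frequently (hT.loc ℓ) (hT.loc ℓ₀) hq X (hb ℓ ℓ₀) (hb0 ℓ) hW h0⟩

end Pool.Agent.Results.MP_898f40_nt.DegreesOnPowers
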